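import Pool.Agent.K7.H47.DM.Stm4

set_option autoImplicit false

open Polynomial

namespace Pool.Agent.K7.H43.D4

open Pool.Agent.K7.H47.DM4

theorem key {ι : Type} [Fintype ι] [DecidableEq ι] (t j cl : ι → ℕ) (ht : Function.Injective t)
    (σ σ' : Equiv.Perm ι) (hσ : Feas t j σ) (hσ' : Feas t j σ')
    (hopt : ∀ τ, Feas t j τ → Wt t cl τ ≤ Wt t cl σ) (r : ι)
    (hmin : ∀ r', t r' < t r → cl (σ.symm r') = cl (σ'.symm r')) :
    ¬ (cl (σ'.symm r) < cl (σ.symm r)) := by
  classical
  intro hlt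
  obtain ⟨x, hx1, hx2, hx3⟩ : ∃ x, cl x = cl (σ'.symm r) ∧ t (σ' x) ≤ t r ∧ t r < t (σ x) := by
    by_contra hcon
    push Not at hcon
    have hle : (Finset.univ.filter fun ρ => t ρ ≤ t r ∧ cl (σ'.symm ρ) = cl (σ'.symm r)).card ≤
        (Finset.univ.filter fun ρ => t ρ ≤ t r ∧ cl (σ.symm ρ) = cl (σ'.symm r)).card := by
      apply Finset.card_le_card_of_injOn (fun ρ => σ (σ'.symm ρ))
      · intro ρ hρ
        simp only [Finset.coe_filter, Finset.mem_univ, true_and, Set.mem_setOf_eq] at hρ ⊢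
        refine ⟨hcon _ hρ.2 (by simpa using hρ.1), ?_⟩
        simpa using hρ.2
      · intro a _ b _ h
        exact σ'.symm.injective (σ.injective h)
    have hlt' : (Finset.univ.filter fun ρ => t ρ ≤ t r ∧ cl (σ.symm ρ) = cl (σ'.symm r)).card <
        (Finset.univ.filter fun ρ => t ρ ≤ t r ∧ cl (σ'.symm ρ) = cl (σ'.symm r)).card := by
      apply Finset.card_lt_card
      rw [Finset.ssubset_iff_of_subset]
      · refine ⟨r, by simp, ?_⟩
        simp only [Finset.mem_filter, Finset.mem_univ, true_and, le_refl]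
        omega
      · intro ρ hρ
        simp only [Finset.mem_filter, Finset.mem_univ, true_and] at hρ ⊢
        refine ⟨hρ.1, ?_⟩
        rcases lt_or_eq_of_le hρ.1 with h | h
        · rw [← hmin ρ h]
          exact hρ.2
        · have := ht h
          subst this
          omega
    omega
  set a := σ.symm r with ha
  have hσa : σ a = r := by simp [ha]
  have hax : x ≠ a := by
    rintro rfl
    omega
  let τ : Equiv.Perm ι := (Equiv.swap a x).trans σ
  have τa : τ a = σ x := by simp [τ]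
  have τx : τ x = r := by simp [τ, hσa]
  have τo : ∀ c, c ≠ a → c ≠ x → τ c = σ c := by
    intro c h1 h2
    simp [τ, Equiv.swap_apply_of_ne_of_ne h1 h2]
  have hτ : Feas t j τ := by
    intro c
    by_cases h1 : c = a
    · rw [h1, τa]
      have := hσ a
      rw [hσa] at this
      omega
    · by_cases h2 : c = x
      · rw [h2, τx]
        exact (hσ' x).trans hx2
      · rw [τo c h1 h2]
        exact hσ c
  have h := hopt τ hτ
  have hx_mem : x ∈ Finset.univ.erase a := Finset.mem_erase.2 ⟨hax, Finset.mem_univ _⟩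
  have e1 : Wt t cl σ = cl a * t (σ a) + (cl x * t (σ x) +
      ∑ c ∈ (Finset.univ.erase a).erase x, cl c * t (σ c)) := by
    unfold Wt
    rw [← Finset.add_sum_erase Finset.univ _ (Finset.mem_univ a),
      ← Finset.add_sum_erase (Finset.univ.erase a) _ hx_mem]
  have e2 : Wt t cl τ = cl a * t (τ a) + (cl x * t (τ x) +
      ∑ c ∈ (Finset.univ.erase a).erase x, cl c * t (τ c)) := by
    unfold Wt
    rw [← Finset.add_sum_erase Finset.univ _ (Finset.mem_univ a),
      ← Finset.add_sum_erase (Finset.univ.erase a) _ hx_mem]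
  have e3 : ∑ c ∈ (Finset.univ.erase a).erase x, cl c * t (τ c) =
      ∑ c ∈ (Finset.univ.erase a).erase x, cl c * t (σ c) := by
    apply Finset.sum_congr rfl
    intro c hc
    rw [Finset.mem_erase, Finset.mem_erase] at hc
    rw [τo c hc.2.1 hc.1]
  rw [e1, e2, e3, τa, τx, hσa] at h
  have h2 : cl a * t (σ x) + cl x * t r ≤ cl a * t r + cl x * t (σ x) := by omega
  have h3 : cl x < cl a := by omega
  obtain ⟨d, hd⟩ := Nat.exists_eq_add_of_lt h3
  obtain ⟨e, he⟩ := Nat.exists_eq_add_of_lt hx3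
  rw [hd, he] at h2
  nlinarith

theorem u : StU := by
  intro ι _ _ t j cl ht σ σ' hσ hσ' hopt hopt'
  by_contra hcon
  push Not at hcon
  obtain ⟨r0, hr0⟩ := hcon
  obtain ⟨r, hr, hmin⟩ : ∃ r, cl (σ.symm r) ≠ cl (σ'.symm r) ∧
      ∀ r', t r' < t r → cl (σ.symm r') = cl (σ'.symm r') := by
    classical
    let S := Finset.univ.filter fun r => cl (σ.symm r) ≠ cl (σ'.symm r)
    have hS : S.Nonempty := ⟨r0, by simp [S, hr0]⟩
    obtain ⟨r, hrS, hr⟩ := Finset.exists_min_image S t hS
    refine ⟨r, (Finset.mem_filter.1 hrS).2, fun r' h => ?_⟩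
    by_contra hne
    have := hr r' (Finset.mem_filter.2 ⟨Finset.mem_univ _, hne⟩)
    omega
  rcases Nat.lt_or_gt_of_ne hr with h | h
  · exact key t j cl ht σ' σ hσ' hσ hopt' r (fun r' h' => (hmin r' h').symm) h
  · exact key t j cl ht σ σ' hσ hσ' hopt r hmin h

end Pool.Agent.K7.H43.D4
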