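import Mathlib
import Pool.Agent.R553.SP.Euler

/-!
# Closed spanning walks of the square of a connected graph
-/

set_option autoImplicit false

namespace Pool.Agent.K7.H43.Sq

open Finset

variable {V : Type} [DecidableEq V]

/-- steps inside `S` -/
def St (G : SimpleGraph V) (S : Finset V) (a b : V) : Prop := G.Adj a b ∧ a ∈ S ∧ b ∈ S

/-- `S` is connected, seen from `v` -/
def Cn (G : SimpleGraph V) (S : Finset V) (v : V) : Prop :=
  v ∈ S ∧ ∀ u ∈ S, Relation.ReflTransGen (St G S) v u

/-- at distance at most 2 -/
def Nr (G : SimpleGraph V) (a b : V) : Prop := a = b ∨ G.Adj a b ∨ ∃ c, G.Adj a c ∧ G.Adj c b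

theorem Nr.symm {G : SimpleGraph V} {a b : V} (h : Nr G a b) : Nr G b a := by
  rcases h with h | h | ⟨c, h1, h2⟩
  · exact Or.inl h.symm
  · exact Or.inr (Or.inl h.symm)
  · exact Or.inr (Or.inr ⟨c, h2.symm, h1.symm⟩)

theorem Nr.adj {G : SimpleGraph V} {a b : V} (h : G.Adj a b) : Nr G a b := Or.inr (Or.inl h)

theorem Nr.two {G : SimpleGraph V} {a b c : V} (h : G.Adj a b) (h' : G.Adj b c) : Nr G a c :=
  Or.inr (Or.inr ⟨b, h, h'⟩)

/-- there is a walk of the square from `v` to `u` through all points of `S` with at most `n`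
points -/
def W (G : SimpleGraph V) (S : Finset V) (v u : V) (n : ℕ) : Prop :=
  ∃ L : List V, L.IsChain (Nr G) ∧ L.head? = some v ∧ L.getLast? = some u ∧ (∀ w ∈ S, w ∈ L) ∧
    L.length ≤ n

theorem W.single (G : SimpleGraph V) (v : V) : W G {v} v v 1 :=
  ⟨[v], List.isChain_singleton _, rfl, rfl, fun w hw => by simpa using hw, le_rfl⟩

theorem W.append {G : SimpleGraph V} {S T : Finset V} {a b c d : V} {n m : ℕ} (h : W G S a b n)
    (hbc : Nr G b c) (h' : W G T c d m) : W G (S ∪ T) a d (n + m) := by
  obtain ⟨L, h1, h2, h3, h4, h5⟩ := h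
  obtain ⟨M, k1, k2, k3, k4, k5⟩ := h'
  have hL : L ≠ [] := by rintro rfl; simp at h2
  have hM : M ≠ [] := by rintro rfl; simp at k2
  refine ⟨L ++ M, ?_, ?_, ?_, ?_, ?_⟩
  · rw [List.isChain_append]
    refine ⟨h1, k1, ?_⟩
    intro x hx y hy
    rw [h3] at hx
    rw [k2] at hy
    have e1 : b = x := by simpa using hx
    have e2 : c = y := by simpa using hy
    rw [← e1, ← e2]
    exact hbc
  · rw [List.head?_append, h2]
    rfl
  · rw [List.getLast?_append, k3]
    rfl
  · intro w hw
    rw [List.mem_append]
    rcases Finset.mem_union.1 hw with hw | hw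
    · exact Or.inl (h4 w hw)
    · exact Or.inr (k4 w hw)
  · rw [List.length_append]
    omega

theorem W.reverse {G : SimpleGraph V} {S : Finset V} {a b : V} {n : ℕ} (h : W G S a b n) :
    W G S b a n := by
  obtain ⟨L, h1, h2, h3, h4, h5⟩ := h
  refine ⟨L.reverse, ?_, ?_, ?_, ?_, ?_⟩
  · rw [List.isChain_reverse]
    exact h1.imp fun _ _ h => h.symm
  · rw [List.head?_reverse, h3]
  · rw [List.getLast?_reverse, h2]
  · intro w hw
    rw [List.mem_reverse]
    exact h4 w hw
  · rw [List.length_reverse]
    exact h5

theorem W.mono {G : SimpleGraph V} {S T : Finset V} {a b : V} {n m : ℕ} (h : W G S a b n)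
    (hS : T ⊆ S) (hn : n ≤ m) : W G T a b m := by
  obtain ⟨L, h1, h2, h3, h4, h5⟩ := h
  exact ⟨L, h1, h2, h3, fun w hw => h4 w (hS hw), h5.trans hn⟩

/-- every point of a connected set is reached from a neighbour of the root without using the
root -/
theorem first {G : SimpleGraph V} {S : Finset V} {v u : V}
    (h : Relation.ReflTransGen (St G S) v u) :
    u = v ∨ ∃ c, G.Adj v c ∧ c ∈ S.erase v ∧ Relation.ReflTransGen (St G (S.erase v)) c u := by
  induction h with
  | refl => exact Or.inl rfl
  | @tail b c _ hs ih =>
    by_cases hc : c = v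
    · exact Or.inl hc
    · right
      rcases ih with ih | ⟨e, h1, h2, h3⟩
      · subst ih
        exact ⟨c, hs.1, Finset.mem_erase.2 ⟨hc, hs.2.2⟩, Relation.ReflTransGen.refl⟩
      · refine ⟨e, h1, h2, h3.tail ⟨hs.1, ?_, Finset.mem_erase.2 ⟨hc, hs.2.2⟩⟩⟩
        rcases Relation.ReflTransGen.cases_tail h3 with h | ⟨_, _, h⟩
        · rw [h]
          exact h2
        · exact h.2.2

/-- splitting off a component -/
theorem split {G : SimpleGraph V} {S : Finset V} {v : V} (hS : Cn G S v) (h2 : 2 ≤ S.card) :
    ∃ c C, G.Adj v c ∧ Cn G C c ∧ C ⊆ S ∧ v ∉ C ∧ Cn G (S \ C) v := by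
  classical
  obtain ⟨u, hu, huv⟩ : ∃ u ∈ S, u ≠ v := Finset.exists_mem_ne (by omega) v
  rcases first (hS.2 u hu) with h | ⟨c, hc1, hc2, _⟩
  · exact absurd h huv
  set C : Finset V := (S.erase v).filter fun w => Relation.ReflTransGen (St G (S.erase v)) c w
    with hC
  have hcC : c ∈ C := Finset.mem_filter.2 ⟨hc2, Relation.ReflTransGen.refl⟩
  have hCS : C ⊆ S.erase v := Finset.filter_subset _ _
  have hvC : v ∉ C := fun h => by simpa using hCS h
  have hclosed : ∀ a b, a ∈ C → G.Adj a b → b ∈ S.erase v → b ∈ C := by
    intro a b ha hab hb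
    have h1 := Finset.mem_filter.1 ha
    exact Finset.mem_filter.2 ⟨hb, h1.2.tail ⟨hab, h1.1, hb⟩⟩
  refine ⟨c, C, hc1, ⟨hcC, ?_⟩, hCS.trans (Finset.erase_subset _ _), hvC,
    ⟨Finset.mem_sdiff.2 ⟨hS.1, hvC⟩, ?_⟩⟩
  · intro w hw
    have h1 := (Finset.mem_filter.1 hw).2
    clear hw
    have : w ∈ C ∧ Relation.ReflTransGen (St G C) c w := by
      induction h1 with
      | refl => exact ⟨hcC, Relation.ReflTransGen.refl⟩
      | tail _ hs ih =>
        have h3 := hclosed _ _ ih.1 hs.1 hs.2.2
        exact ⟨h3, ih.2.tail ⟨hs.1, ih.1, h3⟩⟩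
    exact this.2
  · intro w hw
    have h1 := hS.2 w (Finset.mem_sdiff.1 hw).1
    have : ∀ w, Relation.ReflTransGen (St G S) v w → w ∉ C →
        Relation.ReflTransGen (St G (S \ C)) v w := by
      intro w h
      induction h with
      | refl => exact fun _ => Relation.ReflTransGen.refl
      | @tail a b _ hs ih =>
        intro hb
        by_cases hbv : b = v
        · rw [hbv]
        · have ha : a ∉ C := fun ha =>
            hb (hclosed _ _ ha hs.1 (Finset.mem_erase.2 ⟨hbv, hs.2.2⟩))
          exact (ih ha).tail ⟨hs.1, Finset.mem_sdiff.2 ⟨hs.2.1, ha⟩,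
            Finset.mem_sdiff.2 ⟨hs.2.2, hb⟩⟩
    exact this w h1 (Finset.mem_sdiff.1 hw).2

theorem main (G : SimpleGraph V) : ∀ n : ℕ, ∀ (S : Finset V) (v : V), S.card = n → Cn G S v →
    2 ≤ S.card → ∃ u k, G.Adj v u ∧ W G S v u k ∧ 3 * k + 2 ≤ 4 * S.card := by
  intro n
  induction n using Nat.strong_induction_on with
  | _ n ih =>
    intro S v hn hS h2
    -- walks through components
    have key : ∀ (C : Finset V) (c : V), C.card < n → Cn G C c →
        ∃ g k, (g = c ∨ G.Adj c g) ∧ W G C c g k ∧ 3 * k + 1 ≤ 4 * C.card ∧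
          (2 ≤ C.card → 3 * k + 2 ≤ 4 * C.card) := by
      intro C c hC hc
      by_cases h : 2 ≤ C.card
      · obtain ⟨u, k, h1, h2, h3⟩ := ih _ hC C c rfl hc h
        exact ⟨u, k, Or.inr h1, h2, by omega, fun _ => h3⟩
      · have hcard : C.card = 1 := by
          have : 0 < C.card := Finset.card_pos.2 ⟨c, hc.1⟩
          omega
        obtain ⟨x, hx⟩ := Finset.card_eq_one.1 hcard
        have hcx : c = x := by
          have := hc.1
          rw [hx] at this
          simpa using this
        refine ⟨c, 1, Or.inl rfl, ?_, by omega, fun h' => absurd h' h⟩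
        rw [hx, ← hcx]
        exact W.single G c
    obtain ⟨c, C, hvc, hC, hCS, hvC, hR⟩ := split hS h2
    have hCpos : 0 < C.card := Finset.card_pos.2 ⟨c, hC.1⟩
    have hcardR : (S \ C).card + C.card = S.card := by
      rw [Finset.card_sdiff_of_subset hCS]
      have := Finset.card_le_card hCS
      omega
    have hRpos : 0 < (S \ C).card := Finset.card_pos.2 ⟨v, hR.1⟩
    obtain ⟨g, k, hg, hW, hk, hk'⟩ := key C c (by omega) hC
    have hvg : Nr G v g := by
      rcases hg with h | h
      · rw [h]; exact Nr.adj hvc
      · exact Nr.two hvc h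
    have hSU : S ⊆ {v} ∪ C ∨ 2 ≤ (S \ C).card := by
      by_cases h : 2 ≤ (S \ C).card
      · exact Or.inr h
      · left
        obtain ⟨x, hx⟩ := Finset.card_eq_one.1 (show (S \ C).card = 1 by omega)
        have hvx : v = x := by
          have := hR.1
          rw [hx] at this
          simpa using this
        intro w hw
        rw [Finset.mem_union]
        by_cases hwC : w ∈ C
        · exact Or.inr hwC
        · left
          have : w ∈ S \ C := Finset.mem_sdiff.2 ⟨hw, hwC⟩
          rw [hx, ← hvx] at this
          exact this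
    rcases hSU with hSU | hR2
    · -- a single component
      refine ⟨c, 1 + k, hvc, ((W.single G v).append hvg hW.reverse).mono hSU le_rfl, ?_⟩
      have : S.card = C.card + 1 := by
        have h1 := Finset.card_le_card hSU
        have h3 := Finset.card_union_le {v} C
        rw [Finset.card_singleton] at h3
        omega
      omega
    · by_cases hC2 : 2 ≤ C.card
      · -- a second component
        obtain ⟨c', C', hvc', hC', hCS', hvC', hR'⟩ := split hR hR2
        have hCpos' : 0 < C'.card := Finset.card_pos.2 ⟨c', hC'.1⟩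
        have hcardR' : ((S \ C) \ C').card + C'.card = (S \ C).card := by
          rw [Finset.card_sdiff_of_subset hCS']
          have := Finset.card_le_card hCS'
          omega
        have hRpos' : 0 < ((S \ C) \ C').card := Finset.card_pos.2 ⟨v, hR'.1⟩
        obtain ⟨g', k', hg', hW', hk1, hk1'⟩ := key C' c' (by omega) hC'
        have hvg' : Nr G v g' := by
          rcases hg' with h | h
          · rw [h]; exact Nr.adj hvc'
          · exact Nr.two hvc' h
        have hcc' : Nr G c c' := Nr.two hvc.symm hvc'
        have hcov : S ⊆ {v} ∪ C ∪ C' ∪ ((S \ C) \ C') := by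
          intro w hw
          simp only [Finset.mem_union, Finset.mem_sdiff, Finset.mem_singleton]
          by_cases h1 : w ∈ C <;> by_cases h2 : w ∈ C' <;> simp [h1, h2, hw]
        by_cases hR3 : 2 ≤ ((S \ C) \ C').card
        · -- something remains
          obtain ⟨u, a, hvu, hA, ha⟩ := ih _ (by omega) ((S \ C) \ C') v rfl hR' hR3
          refine ⟨u, 1 + k + k' + a, hvu,
            ((((W.single G v).append hvg hW.reverse).append hcc' hW').append hvg'.symm hA).mono
              hcov le_rfl, ?_⟩
          have := hk' hC2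
          omega
        · have hrem : ∀ w ∈ (S \ C) \ C', w = v := by
            obtain ⟨x, hx⟩ := Finset.card_eq_one.1 (show ((S \ C) \ C').card = 1 by omega)
            have hvx : v = x := by
              have := hR'.1
              rw [hx] at this
              simpa using this
            intro w hw
            rw [hx, ← hvx] at hw
            simpa using hw
          have hcov' : S ⊆ {v} ∪ C ∪ ({v} ∪ C') := by
            intro w hw
            have := hcov hw
            rw [Finset.mem_union] at this
            rcases this with h | h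
            · simp only [Finset.mem_union] at h ⊢
              tauto
            · rw [hrem w h]
              simp
          by_cases hC2' : 2 ≤ C'.card
          · refine ⟨c', 1 + k + (1 + k'), hvc',
              (((W.single G v).append hvg hW.reverse).append (Nr.adj hvc.symm)
                ((W.single G v).append hvg' hW'.reverse)).mono hcov' le_rfl, ?_⟩
            have h5 := hk' hC2
            have h6 := hk1' hC2'
            omega
          · -- the second component is a leaf
            have hC1 : C' = {c'} := by
              obtain ⟨x, hx⟩ := Finset.card_eq_one.1 (show C'.card = 1 by omega)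
              have := hC'.1
              rw [hx] at this
              rw [hx, show c' = x by simpa using this]
            refine ⟨c', 1 + k + 1, hvc',
              (((W.single G v).append hvg hW.reverse).append hcc' (W.single G c')).mono ?_ le_rfl,
              ?_⟩
            · intro w hw
              have := hcov' hw
              rw [hC1] at this
              simp only [Finset.mem_union] at this ⊢
              tauto
            · have h5 := hk' hC2
              omega
      · -- the component is a leaf
        have hC1 : C = {c} := by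
          obtain ⟨x, hx⟩ := Finset.card_eq_one.1 (show C.card = 1 by omega)
          have := hC.1
          rw [hx] at this
          rw [hx, show c = x by simpa using this]
        obtain ⟨u, a, hvu, hA, ha⟩ := ih _ (by omega) (S \ C) v rfl hR hR2
        refine ⟨c, a + 1, hvc, (hA.append (Nr.two hvu.symm hvc) (W.single G c)).mono ?_ le_rfl, ?_⟩
        · intro w hw
          rw [Finset.mem_union, ← hC1, Finset.mem_sdiff]
          by_cases h : w ∈ C
          · exact Or.inr h
          · exact Or.inl ⟨hw, h⟩
        · omega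

/-- the cost of a chain -/
theorem Q_le {G : SimpleGraph V} {d : V → V → ℝ} {ρ : ℝ} (hd : ∀ a b, Nr G a b → d a b ≤ ρ)
    (z : V) : ∀ (w : List V) (u : V), (u :: w).IsChain (Nr G) →
      (∀ y, (u :: w).getLast? = some y → Nr G y z) →
      Pool.Agent.R553.SP.Q d u w z ≤ ρ * (w.length + 1) := by
  intro w
  induction w with
  | nil =>
    intro u _ h2
    have h3 := hd u z (h2 u rfl)
    show d u z ≤ _
    simpa using h3
  | cons a w ih =>
    intro u h1 h2
    rw [List.isChain_cons_cons] at h1
    have h3 := ih a h1.2 (fun y hy => h2 y (by rw [List.getLast?_cons_cons]; exact hy))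
    have h4 := hd u a h1.1
    show d u a + Pool.Agent.R553.SP.Q d a w z ≤ _
    rw [List.length_cons]
    push_cast
    linarith

/-- a tour of cost at most `(4 n - 2) / 3` for costs at most `1` on the square of a connected
graph -/
theorem tour [Fintype V] (hV : 2 ≤ Fintype.card V) (G : SimpleGraph V) (hG : G.Connected)
    (d : V → V → ℝ) (ρ : ℝ) (h0 : ∀ a, d a a ≤ ρ) (hρ : 0 ≤ ρ)
    (htri : ∀ a b c, d a c ≤ d a b + d b c)
    (hsq : ∀ a b, a ≠ b → (G.Adj a b ∨ ∃ c, G.Adj a c ∧ G.Adj c b) → d a b ≤ ρ) :
    ∃ f : Fin (Fintype.card V) ≃ V, ∑ i, d (f i) (f (finRotate _ i)) ≤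
      ρ * ((4 * Fintype.card V - 2) / 3) := by
  obtain ⟨v⟩ := hG.nonempty
  have hcn : Cn G Finset.univ v := by
    refine ⟨Finset.mem_univ _, fun u _ => ?_⟩
    obtain ⟨p⟩ := hG.preconnected v u
    induction p with
    | nil => exact Relation.ReflTransGen.refl
    | cons h _ ih =>
      exact Relation.ReflTransGen.head ⟨h, Finset.mem_univ _, Finset.mem_univ _⟩
        (ih (Finset.mem_univ _))
  obtain ⟨u, k, hvu, ⟨L, h1, h2, h3, h4, h5⟩, hk⟩ := main G _ Finset.univ v rfl hcn
    (by rw [Finset.card_univ]; exact hV)
  cases L with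
  | nil => simp at h2
  | cons a w =>
    have hav : a = v := by simpa using h2
    subst hav
    obtain ⟨f, hf⟩ := Pool.Agent.R553.SP.shortcut d htri a w (fun y => h4 y (Finset.mem_univ y))
    refine ⟨f, hf.trans ?_⟩
    have hd : ∀ x y, Nr G x y → d x y ≤ ρ := by
      intro x y hxy
      by_cases hne : x = y
      · rw [hne]; exact h0 y
      · rcases hxy with h | h | h
        · exact absurd h hne
        · exact hsq x y hne (Or.inl h)
        · exact hsq x y hne (Or.inr h)
    refine (Q_le hd a w a h1 (fun y hy => ?_)).trans ?_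
    · rw [h3] at hy
      rw [← Option.some.inj hy]
      exact Nr.adj hvu.symm
    · refine mul_le_mul_of_nonneg_left ?_ hρ
      rw [Finset.card_univ] at hk
      rw [List.length_cons] at h5
      have h6 : 3 * (w.length + 1) + 2 ≤ 4 * Fintype.card V := by omega
      have h7 : (3 * ((w.length : ℝ) + 1) + 2) ≤ 4 * Fintype.card V := by exact_mod_cast h6
      linarith

end Pool.Agent.K7.H43.Sq
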