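import Mathlib

/-!
# Integral visit numbers

Rounding a fractional solution of the inequalities `f (N(A)) ≥ |A| + 1` to an integral one.
-/

set_option autoImplicit false

namespace Pool.Agent.K7.H43.Split

open Finset

variable {V : Type} [DecidableEq V]

/-- the points of `K` that are adjacent to a point of `A` -/
noncomputable def N (G : SimpleGraph V) (K A : Finset V) : Finset V := by
  classical exact K.filter fun b => ∃ i ∈ A, G.Adj i b

theorem mem_N {G : SimpleGraph V} {K A : Finset V} {b : V} :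
    b ∈ N G K A ↔ b ∈ K ∧ ∃ i ∈ A, G.Adj i b := by
  classical
  unfold N
  rw [Finset.mem_filter]

theorem N_sub (G : SimpleGraph V) (K A : Finset V) : N G K A ⊆ K := fun _ h => (mem_N.1 h).1

theorem N_mono {G : SimpleGraph V} {K A B : Finset V} (h : A ⊆ B) : N G K A ⊆ N G K B := by
  intro b hb
  rw [mem_N] at hb ⊢
  obtain ⟨h1, i, hi, hib⟩ := hb
  exact ⟨h1, i, h hi, hib⟩

theorem N_union (G : SimpleGraph V) (K A B : Finset V) :
    N G K (A ∪ B) = N G K A ∪ N G K B := by
  ext b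
  simp only [mem_N, Finset.mem_union]
  constructor
  · rintro ⟨h1, i, hi | hi, hib⟩
    · exact Or.inl ⟨h1, i, hi, hib⟩
    · exact Or.inr ⟨h1, i, hi, hib⟩
  · rintro (⟨h1, i, hi, hib⟩ | ⟨h1, i, hi, hib⟩)
    · exact ⟨h1, i, Or.inl hi, hib⟩
    · exact ⟨h1, i, Or.inr hi, hib⟩

/-- the inequalities for integral visit numbers -/
def Ok (G : SimpleGraph V) (K I : Finset V) (m : V → ℕ) : Prop :=
  (∀ b ∈ K, 1 ≤ m b) ∧ ∀ A ⊆ I, A.Nonempty → A.card + 1 ≤ ∑ b ∈ N G K A, m b

/-- tight sets -/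
def Tight (G : SimpleGraph V) (K I : Finset V) (m : V → ℕ) (A : Finset V) : Prop :=
  A ⊆ I ∧ A.Nonempty ∧ ∑ b ∈ N G K A, m b = A.card + 1

theorem uncross {G : SimpleGraph V} {K I : Finset V} {m : V → ℕ} (hm : Ok G K I m)
    {A B : Finset V} (hA : Tight G K I m A) (hB : Tight G K I m B)
    (h : (N G K A ∩ N G K B).Nonempty) : Tight G K I m (A ∪ B) := by
  obtain ⟨a1, a2, a3⟩ := hA
  obtain ⟨b1, b2, b3⟩ := hB
  have hAB : A ∪ B ⊆ I := Finset.union_subset a1 b1
  have hne : (A ∪ B).Nonempty := a2.mono Finset.subset_union_left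
  refine ⟨hAB, hne, le_antisymm ?_ (hm.2 _ hAB hne)⟩
  have h1 : ∑ b ∈ N G K A ∪ N G K B, m b + ∑ b ∈ N G K A ∩ N G K B, m b =
      ∑ b ∈ N G K A, m b + ∑ b ∈ N G K B, m b := Finset.sum_union_inter
  have h2 : (A ∩ B).card + 1 ≤ ∑ b ∈ N G K A ∩ N G K B, m b := by
    by_cases hi : (A ∩ B).Nonempty
    · refine (hm.2 (A ∩ B) (Finset.inter_subset_left.trans a1) hi).trans ?_
      exact Finset.sum_le_sum_of_subset (Finset.subset_inter (N_mono Finset.inter_subset_left)
        (N_mono Finset.inter_subset_right))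
    · rw [Finset.not_nonempty_iff_eq_empty.1 hi, Finset.card_empty]
      obtain ⟨c, hc⟩ := h
      refine le_trans (hm.1 c (N_sub _ _ _ (Finset.mem_inter.1 hc).1)) ?_
      exact Finset.single_le_sum (f := m) (fun _ _ => Nat.zero_le _) hc
  have h3 : (A ∪ B).card + (A ∩ B).card = A.card + B.card := Finset.card_union_add_card_inter A B
  rw [N_union]
  omega

/-- a minimal solution is at most every fractional solution, on saturated sets -/
theorem sum_le {G : SimpleGraph V} {K I : Finset V} {m : V → ℕ} (hm : Ok G K I m) {f : V → ℝ}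
    (hf1 : ∀ b ∈ K, 1 ≤ f b)
    (hf2 : ∀ A ⊆ I, A.Nonempty → (A.card : ℝ) + 1 ≤ ∑ b ∈ N G K A, f b) :
    ∀ n : ℕ, ∀ X : Finset V, X.card = n → X ⊆ K →
      (∀ b ∈ X, m b ≠ 1 → ∃ A, Tight G K I m A ∧ b ∈ N G K A ∧ N G K A ⊆ X) →
      ((∑ b ∈ X, m b : ℕ) : ℝ) ≤ ∑ b ∈ X, f b := by
  classical
  intro n
  induction n using Nat.strong_induction_on with
  | _ n ih =>
    intro X hX hXK hsat
    by_cases hex : ∃ b ∈ X, m b ≠ 1
    · obtain ⟨b0, hb0, hb0m⟩ := hex
      obtain ⟨A0, hA0, -, hA0X⟩ := hsat b0 hb0 hb0m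
      -- a largest tight set
      set F : Finset (Finset V) := I.powerset.filter fun A => Tight G K I m A ∧ N G K A ⊆ X with hF
      have hFne : F.Nonempty :=
        ⟨A0, Finset.mem_filter.2 ⟨Finset.mem_powerset.2 hA0.1, hA0, hA0X⟩⟩
      obtain ⟨A, hAF, hmax⟩ := Finset.exists_max_image F Finset.card hFne
      obtain ⟨-, hA, hAX⟩ := Finset.mem_filter.1 hAF
      have hsub : (X \ N G K A).card < n := by
        rw [← hX]
        apply Finset.card_lt_card
        refine Finset.ssubset_iff_subset_ne.2 ⟨Finset.sdiff_subset, fun he => ?_⟩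
        have h1 := hm.2 A hA.1 hA.2.1
        have h2 : (N G K A).Nonempty := by
          by_contra h
          rw [Finset.not_nonempty_iff_eq_empty.1 h, Finset.sum_empty] at h1
          omega
        obtain ⟨c, hc⟩ := h2
        have h3 : c ∈ X \ N G K A := by
          rw [he]
          exact hAX hc
        exact (Finset.mem_sdiff.1 h3).2 hc
      have hrec := ih _ hsub (X \ N G K A) rfl (Finset.sdiff_subset.trans hXK) (by
        intro b hb hbm
        obtain ⟨hbX, hbA⟩ := Finset.mem_sdiff.1 hb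
        obtain ⟨B, hB, hbB, hBX⟩ := hsat b hbX hbm
        refine ⟨B, hB, hbB, fun c hc => Finset.mem_sdiff.2 ⟨hBX hc, fun hcA => ?_⟩⟩
        have h1 := uncross hm hA hB ⟨c, Finset.mem_inter.2 ⟨hcA, hc⟩⟩
        have h2 : A ∪ B ∈ F := Finset.mem_filter.2 ⟨Finset.mem_powerset.2 h1.1, h1, by
          rw [N_union]
          exact Finset.union_subset hAX hBX⟩
        have h3 := hmax _ h2
        have h4 : A = A ∪ B := Finset.eq_of_subset_of_card_le Finset.subset_union_left h3
        have h5 : B ⊆ A := by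
          rw [h4]
          exact Finset.subset_union_right
        exact hbA (N_mono h5 hbB))
      have e1 : ∑ b ∈ X \ N G K A, m b + ∑ b ∈ N G K A, m b = ∑ b ∈ X, m b :=
        Finset.sum_sdiff hAX
      have e2 : ∑ b ∈ X \ N G K A, f b + ∑ b ∈ N G K A, f b = ∑ b ∈ X, f b :=
        Finset.sum_sdiff hAX
      have e3 := hf2 A hA.1 hA.2.1
      rw [← e1, ← e2, hA.2.2]
      push_cast at hrec ⊢
      linarith
    · push Not at hex
      rw [Finset.sum_congr rfl hex]
      push_cast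
      exact Finset.sum_le_sum fun b hb => hf1 b (hXK hb)

/-- integral visit numbers -/
theorem exists_int {G : SimpleGraph V} {K I : Finset V} {f : V → ℝ}
    (hf1 : ∀ b ∈ K, 1 ≤ f b)
    (hf2 : ∀ A ⊆ I, A.Nonempty → (A.card : ℝ) + 1 ≤ ∑ b ∈ N G K A, f b) :
    ∃ m : V → ℕ, Ok G K I m ∧ ((∑ b ∈ K, m b : ℕ) : ℝ) ≤ ∑ b ∈ K, f b := by
  classical
  have hex : ∃ k : ℕ, ∃ m : V → ℕ, Ok G K I m ∧ ∑ b ∈ K, m b = k := by
    refine ⟨_, fun _ => I.card + 1, ⟨fun _ _ => Nat.succ_le_succ (Nat.zero_le _), fun A hA hne => ?_⟩, rfl⟩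
    have h1 : (N G K A).Nonempty := by
      by_contra h
      have := hf2 A hA hne
      rw [Finset.not_nonempty_iff_eq_empty.1 h, Finset.sum_empty] at this
      have h0 : (0 : ℝ) ≤ A.card := Nat.cast_nonneg _
      linarith
    obtain ⟨c, hc⟩ := h1
    have h2 := Finset.single_le_sum (f := fun _ : V => I.card + 1) (fun _ _ => Nat.zero_le _) hc
    have h3 := Finset.card_le_card hA
    exact le_trans (Nat.succ_le_succ h3) h2
  obtain ⟨m, hm, hmk⟩ := Nat.find_spec hex
  have hmin := fun (k : ℕ) (hk : k < Nat.find hex) => Nat.find_min hex hk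
  refine ⟨m, hm, sum_le hm hf1 hf2 _ K rfl subset_rfl ?_⟩
  intro b hb hb1
  by_contra hno
  push Not at hno
  have hb2 : 2 ≤ m b := by
    have := hm.1 b hb
    omega
  set m' : V → ℕ := Function.update m b (m b - 1) with hm'
  have hsum : ∀ X : Finset V, b ∈ X → ∑ c ∈ X, m' c + 1 = ∑ c ∈ X, m c := by
    intro X hX
    rw [← Finset.add_sum_erase X m' hX, ← Finset.add_sum_erase X m hX]
    have e : ∑ c ∈ X.erase b, m' c = ∑ c ∈ X.erase b, m c :=
      Finset.sum_congr rfl fun c hc => by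
        rw [hm', Function.update_of_ne (Finset.ne_of_mem_erase hc)]
    rw [e, hm', Function.update_self]
    omega
  have hsum' : ∀ X : Finset V, b ∉ X → ∑ c ∈ X, m' c = ∑ c ∈ X, m c := by
    intro X hX
    refine Finset.sum_congr rfl fun c hc => ?_
    rw [hm', Function.update_of_ne]
    rintro rfl
    exact hX hc
  refine hmin (∑ c ∈ K, m' c) (by have := hsum K hb; omega) ⟨m', ⟨?_, ?_⟩, rfl⟩
  · intro c hc
    rw [hm']
    by_cases h : c = b
    · rw [h, Function.update_self]
      omega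
    · rw [Function.update_of_ne h]
      exact hm.1 c hc
  · intro A hA hne
    by_cases hbA : b ∈ N G K A
    · have h1 := hm.2 A hA hne
      have h2 := hsum _ hbA
      by_cases h3 : ∑ c ∈ N G K A, m c = A.card + 1
      · exact absurd (N_sub G K A) (hno A ⟨hA, hne, h3⟩ hbA)
      · omega
    · rw [hsum' _ hbA]
      exact hm.2 A hA hne

end Pool.Agent.K7.H43.Split
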