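import Mathlib
import Pool.Agent.K7.H43.SplitInt

/-!
# Covering the independent part of a split graph by few trails
-/

set_option autoImplicit false

namespace Pool.Agent.K7.H43.Split

open Finset

variable {V : Type} [DecidableEq V]

/-- the copies of the points of `X` -/
def Cp (m : V → ℕ) (X : Finset V) : Finset ((_ : V) × ℕ) := X.sigma fun b => Finset.range (m b)

theorem card_Cp (m : V → ℕ) (X : Finset V) : (Cp m X).card = ∑ b ∈ X, m b := by
  unfold Cp
  rw [Finset.card_sigma]
  simp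

theorem mem_Cp {m : V → ℕ} {X : Finset V} {p : (_ : V) × ℕ} :
    p ∈ Cp m X ↔ p.1 ∈ X ∧ p.2 < m p.1 := by
  unfold Cp
  rw [Finset.mem_sigma, Finset.mem_range]

/-- distinct representatives -/
theorem hall {G : SimpleGraph V} {K I : Finset V} {m : V → ℕ} (hm : Ok G K I m) :
    ∃ c : V → (_ : V) × ℕ, (∀ i ∈ I, G.Adj i (c i).1 ∧ c i ∈ Cp m K) ∧
      Set.InjOn c (I : Set V) := by
  classical
  have key := (Finset.all_card_le_biUnion_card_iff_exists_injective
    (fun i : {i // i ∈ I} => Cp m (N G K {i.1}))).1 (by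
      intro s
      by_cases hs : s.Nonempty
      · set A : Finset V := s.map (Function.Embedding.subtype _) with hA
        have hAI : A ⊆ I := by
          intro x hx
          rw [hA, Finset.mem_map] at hx
          obtain ⟨y, _, rfl⟩ := hx
          exact y.2
        have hAne : A.Nonempty := by
          rw [hA, Finset.map_nonempty]
          exact hs
        have h1 := hm.2 A hAI hAne
        have h2 : Cp m (N G K A) ⊆ s.biUnion fun i : {i // i ∈ I} => Cp m (N G K {i.1}) := by
          intro p hp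
          rw [mem_Cp, mem_N] at hp
          obtain ⟨⟨h3, i, hi, h4⟩, h5⟩ := hp
          rw [hA, Finset.mem_map] at hi
          obtain ⟨y, hy, rfl⟩ := hi
          rw [Finset.mem_biUnion]
          exact ⟨y, hy, mem_Cp.2 ⟨mem_N.2 ⟨h3, y.1, Finset.mem_singleton_self _, h4⟩, h5⟩⟩
        have h3 := Finset.card_le_card h2
        rw [card_Cp] at h3
        have h4 : A.card = s.card := Finset.card_map _
        omega
      · rw [Finset.not_nonempty_iff_eq_empty.1 hs]
        simp)
  obtain ⟨f, hf, hfm⟩ := key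
  refine ⟨fun v => if h : v ∈ I then f ⟨v, h⟩ else ⟨v, 0⟩, ?_, ?_⟩
  · intro i hi
    simp only [hi, dif_pos]
    have h1 := hfm ⟨i, hi⟩
    rw [mem_Cp, mem_N] at h1
    obtain ⟨⟨h2, j, hj, h3⟩, h4⟩ := h1
    rw [Finset.mem_singleton] at hj
    subst hj
    exact ⟨h3, mem_Cp.2 ⟨h2, h4⟩⟩
  · intro i hi j hj hij
    have hi' : i ∈ I := hi
    have hj' : j ∈ I := hj
    simp only [hi', hj', dif_pos] at hij
    exact congrArg Subtype.val (hf hij)

/-- a system of trails -/
structure Sys (G : SimpleGraph V) (K I : Finset V) (m : V → ℕ) (c : V → (_ : V) × ℕ)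
    (A : Finset V) (k : ℕ) (L : Multiset (List ((_ : V) × ℕ))) (E : ℕ)
    (B : Finset ((_ : V) × ℕ)) : Prop where
  sub : A ⊆ I
  card : A.card + k = I.card
  chain : ∀ s ∈ L, s.IsChain fun p q => G.Adj p.1 q.1
  ends : ∀ s ∈ L, ∃ p q, s.head? = some p ∧ s.getLast? = some q ∧ p.1 ∈ K ∧ q.1 ∈ K
  covI : ∀ i ∈ I, i ∉ A → ∃ s ∈ L, ∃ p ∈ s, p.1 = i
  covP : ∀ p ∈ Cp m K, p ∉ A.image c → ∃ s ∈ L, p ∈ s
  bad : ∀ p ∈ Cp m K, p ∉ A.image c → p ∈ B ∨ ∃ s ∈ L, s.head? = some p ∨ s.getLast? = some p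
  len : (L.map List.length).sum + I.card ≤ 2 * k + (Cp m K).card + E
  pot : 2 * E + B.card + 1 ≤ k ∨ (k = 0 ∧ E = 0 ∧ B = ∅ ∧ ∀ s ∈ L, s.length = 1)

theorem sys_zero {G : SimpleGraph V} {K I : Finset V} {m : V → ℕ} {c : V → (_ : V) × ℕ}
    (hc1 : ∀ i ∈ I, G.Adj i (c i).1 ∧ c i ∈ Cp m K) (hc2 : Set.InjOn c (I : Set V)) :
    ∃ L, Sys G K I m c I 0 L 0 ∅ := by
  set X : Finset ((_ : V) × ℕ) := Cp m K \ I.image c with hX
  have hsub : I.image c ⊆ Cp m K := by
    intro p hp
    obtain ⟨i, hi, rfl⟩ := Finset.mem_image.1 hp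
    exact (hc1 i hi).2
  have hmem : ∀ s, s ∈ X.val.map (fun p => [p]) ↔ ∃ p ∈ X, s = [p] := by
    intro s
    rw [Multiset.mem_map]
    constructor
    · rintro ⟨p, hp, rfl⟩
      exact ⟨p, hp, rfl⟩
    · rintro ⟨p, hp, rfl⟩
      exact ⟨p, hp, rfl⟩
  refine ⟨X.val.map fun p => [p], subset_rfl, rfl, ?_, ?_, ?_, ?_, ?_, ?_, ?_⟩
  · intro s hs
    obtain ⟨p, _, rfl⟩ := (hmem s).1 hs
    exact List.isChain_singleton _
  · intro s hs
    obtain ⟨p, hp, rfl⟩ := (hmem s).1 hs
    have h1 := (mem_Cp.1 (Finset.mem_sdiff.1 hp).1).1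
    exact ⟨p, p, rfl, rfl, h1, h1⟩
  · intro i hi hi'
    exact absurd hi hi'
  · intro p hp hp'
    exact ⟨[p], (hmem _).2 ⟨p, Finset.mem_sdiff.2 ⟨hp, hp'⟩, rfl⟩, List.mem_singleton_self p⟩
  · intro p hp hp'
    exact Or.inr ⟨[p], (hmem _).2 ⟨p, Finset.mem_sdiff.2 ⟨hp, hp'⟩, rfl⟩, Or.inl rfl⟩
  · rw [Multiset.map_map]
    have h1 : (Multiset.map (List.length ∘ fun p => [p]) X.val).sum = X.card := by
      simp
    rw [h1]
    have h2 : X.card + (I.image c).card = (Cp m K).card := by
      rw [hX, Finset.card_sdiff_of_subset hsub]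
      have := Finset.card_le_card hsub
      omega
    rw [Finset.card_image_of_injOn hc2] at h2
    omega
  · right
    refine ⟨rfl, rfl, rfl, ?_⟩
    intro s hs
    obtain ⟨p, _, rfl⟩ := (hmem s).1 hs
    rfl

/-- one more point of `I` at the end of a trail -/
theorem sys_extend {G : SimpleGraph V} {K I : Finset V} {m : V → ℕ} {c : V → (_ : V) × ℕ}
    (hc1 : ∀ i ∈ I, G.Adj i (c i).1 ∧ c i ∈ Cp m K)
    {A : Finset V} {k : ℕ} {L : Multiset (List ((_ : V) × ℕ))} {E : ℕ}
    {B : Finset ((_ : V) × ℕ)} {i : V} (hi : i ∈ A) {p : (_ : V) × ℕ}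
    (hip : G.Adj i p.1) {s t : List ((_ : V) × ℕ)} (hst : t = s ∨ t = s.reverse)
    (hp : t.getLast? = some p) (h : Sys G K I m c A k (s ::ₘ L) E B) :
    ∃ L' B', Sys G K I m c (A.erase i) (k + 1) L' E B' := by
  have hiI : i ∈ I := h.sub hi
  have hs : s ∈ s ::ₘ L := Multiset.mem_cons_self s L
  have htchain : t.IsChain fun p q => G.Adj p.1 q.1 := by
    rcases hst with rfl | rfl
    · exact h.chain _ hs
    · rw [List.isChain_reverse]
      exact (h.chain _ hs).imp fun _ _ h => h.symm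
  obtain ⟨a, b, ha, hb, haK, hbK⟩ := h.ends s hs
  -- the head of `t`
  obtain ⟨e, he, heK, hends⟩ : ∃ e, t.head? = some e ∧ e.1 ∈ K ∧
      ∀ q, (s.head? = some q ∨ s.getLast? = some q) → q = e ∨ q = p := by
    rcases hst with rfl | rfl
    · refine ⟨a, ha, haK, fun q hq => ?_⟩
      rcases hq with hq | hq
      · rw [ha] at hq
        exact Or.inl (Option.some.inj hq).symm
      · rw [hp] at hq
        exact Or.inr (Option.some.inj hq).symm
    · refine ⟨b, by rw [List.head?_reverse, hb], hbK, fun q hq => ?_⟩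
      rw [List.getLast?_reverse] at hp
      rcases hq with hq | hq
      · rw [hp] at hq
        exact Or.inr (Option.some.inj hq).symm
      · rw [hb] at hq
        exact Or.inl (Option.some.inj hq).symm
  have htmem : ∀ q, q ∈ t ↔ q ∈ s := by
    intro q
    rcases hst with rfl | rfl
    · rfl
    · rw [List.mem_reverse]
  have htlen : t.length = s.length := by
    rcases hst with rfl | rfl
    · rfl
    · rw [List.length_reverse]
  set q : (_ : V) × ℕ := c i with hq
  set t' : List ((_ : V) × ℕ) := t ++ [⟨i, 0⟩, q] with ht'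
  have ht'head : t'.head? = some e := by
    rw [ht', List.head?_append, he]
    rfl
  have ht'last : t'.getLast? = some q := by
    rw [ht', List.getLast?_append]
    rfl
  have ht'sub : ∀ r, r ∈ s → r ∈ t' := by
    intro r hr
    rw [ht', List.mem_append]
    exact Or.inl ((htmem r).2 hr)
  have hqK : q.1 ∈ K := (mem_Cp.1 (hc1 i hiI).2).1
  have himg : ∀ r, r ∉ (A.erase i).image c → r = q ∨ r ∉ A.image c := by
    intro r hr
    by_cases hrq : r = q
    · exact Or.inl hrq
    · right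
      intro hr'
      obtain ⟨j, hj, rfl⟩ := Finset.mem_image.1 hr'
      refine hr (Finset.mem_image.2 ⟨j, Finset.mem_erase.2 ⟨?_, hj⟩, rfl⟩)
      rintro rfl
      exact hrq rfl
  have hlen' : ((t' ::ₘ L).map List.length).sum + I.card ≤
      2 * (k + 1) + (Cp m K).card + E := by
    have h1 := h.len
    rw [Multiset.map_cons, Multiset.sum_cons] at h1 ⊢
    rw [ht', List.length_append, htlen]
    simp only [List.length_cons, List.length_nil]
    omega
  have hcard' : (A.erase i).card + (k + 1) = I.card := by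
    rw [Finset.card_erase_of_mem hi]
    have := h.card
    have := Finset.card_pos.2 ⟨i, hi⟩
    omega
  have hchain' : ∀ u ∈ t' ::ₘ L, u.IsChain fun p q => G.Adj p.1 q.1 := by
    intro u hu
    rcases Multiset.mem_cons.1 hu with rfl | hu
    · rw [ht', List.isChain_append]
      refine ⟨htchain, ?_, ?_⟩
      · rw [List.isChain_cons_cons]
        exact ⟨(hc1 i hiI).1, List.isChain_singleton _⟩
      · intro x hx y hy
        rw [hp] at hx
        have e1 : p = x := by simpa using hx
        have e2 : (⟨i, 0⟩ : (_ : V) × ℕ) = y := by simpa using hy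
        rw [← e1, ← e2]
        exact hip.symm
    · exact h.chain u (Multiset.mem_cons_of_mem hu)
  have hends' : ∀ u ∈ t' ::ₘ L, ∃ p q, u.head? = some p ∧ u.getLast? = some q ∧
      p.1 ∈ K ∧ q.1 ∈ K := by
    intro u hu
    rcases Multiset.mem_cons.1 hu with rfl | hu
    · exact ⟨e, q, ht'head, ht'last, heK, hqK⟩
    · exact h.ends u (Multiset.mem_cons_of_mem hu)
  have hcovI' : ∀ j ∈ I, j ∉ A.erase i → ∃ u ∈ t' ::ₘ L, ∃ p ∈ u, p.1 = j := by
    intro j hj hjA
    by_cases hji : j = i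
    · refine ⟨t', Multiset.mem_cons_self _ _, ⟨i, 0⟩, ?_, hji.symm⟩
      rw [ht', List.mem_append]
      right
      simp
    · have hjA' : j ∉ A := fun h' => hjA (Finset.mem_erase.2 ⟨hji, h'⟩)
      obtain ⟨u, hu, r, hr, hrj⟩ := h.covI j hj hjA'
      rcases Multiset.mem_cons.1 hu with rfl | hu
      · exact ⟨t', Multiset.mem_cons_self _ _, r, ht'sub r hr, hrj⟩
      · exact ⟨u, Multiset.mem_cons_of_mem hu, r, hr, hrj⟩
  have hcovP' : ∀ r ∈ Cp m K, r ∉ (A.erase i).image c → ∃ u ∈ t' ::ₘ L, r ∈ u := by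
    intro r hr hrA
    rcases himg r hrA with h1 | h1
    · refine ⟨t', Multiset.mem_cons_self _ _, ?_⟩
      rw [h1, ht', List.mem_append]
      right
      simp
    · obtain ⟨u, hu, hru⟩ := h.covP r hr h1
      rcases Multiset.mem_cons.1 hu with rfl | hu
      · exact ⟨t', Multiset.mem_cons_self _ _, ht'sub r hru⟩
      · exact ⟨u, Multiset.mem_cons_of_mem hu, hru⟩
  have hbad' : ∀ r ∈ Cp m K, r ∉ (A.erase i).image c → r ∈ B ∨ r = p ∨
      ∃ u ∈ t' ::ₘ L, u.head? = some r ∨ u.getLast? = some r := by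
    intro r hr hrA
    rcases himg r hrA with h1 | h1
    · right; right
      exact ⟨t', Multiset.mem_cons_self _ _, Or.inr (by rw [ht'last, h1])⟩
    · rcases h.bad r hr h1 with h2 | ⟨u, hu, hru⟩
      · exact Or.inl h2
      · rcases Multiset.mem_cons.1 hu with rfl | hu
        · rcases hends r hru with h3 | h3
          · right; right
            exact ⟨t', Multiset.mem_cons_self _ _, Or.inl (by rw [ht'head, h3])⟩
          · exact Or.inr (Or.inl h3)
        · right; right
          exact ⟨u, Multiset.mem_cons_of_mem hu, hru⟩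
  have hsub' : A.erase i ⊆ I := (Finset.erase_subset _ _).trans h.sub
  rcases h.pot with hpot | ⟨hk, hE, hB, hone⟩
  · refine ⟨t' ::ₘ L, insert p B, hsub', hcard', hchain', hends', hcovI', hcovP', ?_, hlen', ?_⟩
    · intro r hr hrA
      rcases hbad' r hr hrA with h1 | h1 | h1
      · exact Or.inl (Finset.mem_insert_of_mem h1)
      · left
        rw [h1]
        exact Finset.mem_insert_self _ _
      · exact Or.inr h1
    · left
      have := Finset.card_insert_le p B
      omega
  · refine ⟨t' ::ₘ L, ∅, hsub', hcard', hchain', hends', hcovI', hcovP', ?_, hlen', ?_⟩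
    · intro r hr hrA
      rcases hbad' r hr hrA with h1 | h1 | h1
      · rw [hB] at h1
        exact Or.inl h1
      · right
        refine ⟨t', Multiset.mem_cons_self _ _, Or.inl ?_⟩
        rw [ht'head, h1]
        -- `t` has one element
        have h2 : t.length = 1 := htlen.trans (hone s hs)
        obtain ⟨x, hx⟩ := List.length_eq_one_iff.1 h2
        rw [hx] at he hp
        have e1 : x = e := by simpa using he
        have e2 : x = p := by simpa using hp
        rw [← e1, ← e2]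
      · exact Or.inr h1
    · left
      rw [Finset.card_empty]
      omega

/-- one more point of `I` in a new trail -/
theorem sys_new {G : SimpleGraph V} {K I : Finset V} {m : V → ℕ} {c : V → (_ : V) × ℕ}
    (hc1 : ∀ i ∈ I, G.Adj i (c i).1 ∧ c i ∈ Cp m K)
    {A : Finset V} {k : ℕ} {L : Multiset (List ((_ : V) × ℕ))} {E : ℕ}
    {B : Finset ((_ : V) × ℕ)} {i : V} (hi : i ∈ A) {p : (_ : V) × ℕ}
    (hip : G.Adj i p.1) (hpK : p.1 ∈ K) (hpB : p ∈ B) (h : Sys G K I m c A k L E B) :
    ∃ L' B', Sys G K I m c (A.erase i) (k + 1) L' (E + 1) B' := by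
  have hiI : i ∈ I := h.sub hi
  set q : (_ : V) × ℕ := c i with hq
  have hqK : q.1 ∈ K := (mem_Cp.1 (hc1 i hiI).2).1
  set t' : List ((_ : V) × ℕ) := [p, ⟨i, 0⟩, q] with ht'
  have himg : ∀ r, r ∉ (A.erase i).image c → r = q ∨ r ∉ A.image c := by
    intro r hr
    by_cases hrq : r = q
    · exact Or.inl hrq
    · right
      intro hr'
      obtain ⟨j, hj, rfl⟩ := Finset.mem_image.1 hr'
      refine hr (Finset.mem_image.2 ⟨j, Finset.mem_erase.2 ⟨?_, hj⟩, rfl⟩)
      rintro rfl
      exact hrq rfl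
  refine ⟨t' ::ₘ L, B.erase p, (Finset.erase_subset _ _).trans h.sub, ?_, ?_, ?_, ?_, ?_, ?_, ?_,
    ?_⟩
  · rw [Finset.card_erase_of_mem hi]
    have := h.card
    have := Finset.card_pos.2 ⟨i, hi⟩
    omega
  · intro u hu
    rcases Multiset.mem_cons.1 hu with rfl | hu
    · rw [ht', List.isChain_cons_cons, List.isChain_cons_cons]
      exact ⟨hip.symm, (hc1 i hiI).1, List.isChain_singleton _⟩
    · exact h.chain u hu
  · intro u hu
    rcases Multiset.mem_cons.1 hu with rfl | hu
    · exact ⟨p, q, rfl, rfl, hpK, hqK⟩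
    · exact h.ends u hu
  · intro j hj hjA
    by_cases hji : j = i
    · refine ⟨t', Multiset.mem_cons_self _ _, ⟨i, 0⟩, ?_, hji.symm⟩
      rw [ht']
      simp
    · have hjA' : j ∉ A := fun h' => hjA (Finset.mem_erase.2 ⟨hji, h'⟩)
      obtain ⟨u, hu, r, hr, hrj⟩ := h.covI j hj hjA'
      exact ⟨u, Multiset.mem_cons_of_mem hu, r, hr, hrj⟩
  · intro r hr hrA
    rcases himg r hrA with h1 | h1
    · refine ⟨t', Multiset.mem_cons_self _ _, ?_⟩
      rw [h1, ht']
      simp
    · obtain ⟨u, hu, hru⟩ := h.covP r hr h1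
      exact ⟨u, Multiset.mem_cons_of_mem hu, hru⟩
  · intro r hr hrA
    rcases himg r hrA with h1 | h1
    · right
      exact ⟨t', Multiset.mem_cons_self _ _, Or.inr (by rw [h1, ht']; rfl)⟩
    · by_cases hrp : r = p
      · right
        exact ⟨t', Multiset.mem_cons_self _ _, Or.inl (by rw [hrp, ht']; rfl)⟩
      · rcases h.bad r hr h1 with h2 | ⟨u, hu, hru⟩
        · exact Or.inl (Finset.mem_erase.2 ⟨hrp, h2⟩)
        · right
          exact ⟨u, Multiset.mem_cons_of_mem hu, hru⟩
  · have h1 := h.len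
    rw [Multiset.map_cons, Multiset.sum_cons, ht']
    simp only [List.length_cons, List.length_nil]
    omega
  · rcases h.pot with hpot | ⟨hk, hE, hB, _⟩
    · left
      rw [Finset.card_erase_of_mem hpB]
      have := Finset.card_pos.2 ⟨p, hpB⟩
      omega
    · rw [hB] at hpB
      simp at hpB

theorem sys_all {G : SimpleGraph V} {K I : Finset V} {m : V → ℕ} (hm : Ok G K I m)
    {c : V → (_ : V) × ℕ}
    (hc1 : ∀ i ∈ I, G.Adj i (c i).1 ∧ c i ∈ Cp m K) (hc2 : Set.InjOn c (I : Set V)) :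
    ∀ k ≤ I.card, ∃ A L E B, Sys G K I m c A k L E B := by
  intro k
  induction k with
  | zero =>
    intro _
    obtain ⟨L, hL⟩ := sys_zero hc1 hc2
    exact ⟨I, L, 0, ∅, hL⟩
  | succ k ih =>
    intro hk
    obtain ⟨A, L, E, B, h⟩ := ih (by omega)
    have hAc := h.card
    have hAne : A.Nonempty := Finset.card_pos.1 (by omega)
    have h1 := hm.2 A h.sub hAne
    rw [← card_Cp] at h1
    have h2 : (A.image c).card ≤ A.card := Finset.card_image_le
    obtain ⟨p, hp, hpA⟩ : ∃ p ∈ Cp m (N G K A), p ∉ A.image c := by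
      by_contra hno
      push Not at hno
      have := Finset.card_le_card (show Cp m (N G K A) ⊆ A.image c from hno)
      omega
    rw [mem_Cp, mem_N] at hp
    obtain ⟨⟨hpK, i, hi, hip⟩, hpm⟩ := hp
    have hpC : p ∈ Cp m K := mem_Cp.2 ⟨hpK, hpm⟩
    by_cases hend : ∃ s ∈ L, s.head? = some p ∨ s.getLast? = some p
    · obtain ⟨s, hs, hsp⟩ := hend
      obtain ⟨L', rfl⟩ := Multiset.exists_cons_of_mem hs
      rcases hsp with hsp | hsp
      · obtain ⟨L'', B'', h'⟩ := sys_extend hc1 hi hip (s := s) (t := s.reverse) (Or.inr rfl)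
          (by rw [List.getLast?_reverse]; exact hsp) h
        exact ⟨_, L'', E, B'', h'⟩
      · obtain ⟨L'', B'', h'⟩ := sys_extend hc1 hi hip (s := s) (t := s) (Or.inl rfl) hsp h
        exact ⟨_, L'', E, B'', h'⟩
    · rcases h.bad p hpC hpA with hb | hb
      · obtain ⟨L'', B'', h'⟩ := sys_new hc1 hi hip hpK hb h
        exact ⟨_, L'', E + 1, B'', h'⟩
      · exact absurd hb hend

/-- equal or adjacent -/
def Ea (G : SimpleGraph V) (a b : V) : Prop := a = b ∨ G.Adj a b

/-- joining walks with ends in a clique -/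
theorem join {G : SimpleGraph V} {K : Finset V}
    (hK : ∀ a ∈ K, ∀ b ∈ K, a ≠ b → G.Adj a b) :
    ∀ ls : List (List V), ls ≠ [] →
      (∀ s ∈ ls, s.IsChain (Ea G) ∧ ∃ p q, s.head? = some p ∧ s.getLast? = some q ∧
        p ∈ K ∧ q ∈ K) →
      ls.flatten.IsChain (Ea G) ∧ ∃ p q, ls.flatten.head? = some p ∧
        ls.flatten.getLast? = some q ∧ p ∈ K ∧ q ∈ K := by
  intro ls
  induction ls with
  | nil => intro h; exact absurd rfl h
  | cons s ls ih =>
    intro _ h
    by_cases hls : ls = []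
    · subst hls
      simpa using h s (by simp)
    · obtain ⟨h1, p, q, h2, h3, h4, h5⟩ := ih hls fun t ht => h t (List.mem_cons_of_mem _ ht)
      obtain ⟨k1, p', q', k2, k3, k4, k5⟩ := h s List.mem_cons_self
      rw [List.flatten_cons]
      refine ⟨?_, p', q, ?_, ?_, k4, h5⟩
      · rw [List.isChain_append]
        refine ⟨k1, h1, ?_⟩
        intro x hx y hy
        rw [k3] at hx
        rw [h2] at hy
        have e1 : q' = x := by simpa using hx
        have e2 : p = y := by simpa using hy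
        rw [← e1, ← e2]
        by_cases he : q' = p
        · exact Or.inl he
        · exact Or.inr (hK _ k5 _ h4 he)
      · rw [List.head?_append, k2]
        rfl
      · rw [List.getLast?_append, h3]
        rfl

/-- a closed walk of a split graph through all points, with few points -/
theorem walk {G : SimpleGraph V} {K I : Finset V} {m : V → ℕ} (hm : Ok G K I m)
    (hK : ∀ a ∈ K, ∀ b ∈ K, a ≠ b → G.Adj a b) (hne : K.Nonempty) :
    ∃ (L : List V) (E : ℕ), L.IsChain (Ea G) ∧ (∃ p q, L.head? = some p ∧ L.getLast? = some q ∧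
      p ∈ K ∧ q ∈ K) ∧ (∀ v ∈ K ∪ I, v ∈ L) ∧ L.length ≤ I.card + ∑ b ∈ K, m b + E ∧
      (2 * E + 1 ≤ I.card ∨ (I.card = 0 ∧ E = 0)) := by
  obtain ⟨c, hc1, hc2⟩ := hall hm
  obtain ⟨A, L, E, B, h⟩ := sys_all hm hc1 hc2 I.card le_rfl
  have hA : A = ∅ := by
    have := h.card
    exact Finset.card_eq_zero.1 (by omega)
  subst hA
  set ls : List (List V) := L.toList.map (List.map Sigma.fst) with hls
  have hmemls : ∀ u, u ∈ ls ↔ ∃ s ∈ L, s.map Sigma.fst = u := by
    intro u
    rw [hls, List.mem_map]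
    simp only [Multiset.mem_toList]
  obtain ⟨b0, hb0⟩ := hne
  have hcovK : ∀ b ∈ K, ∃ s ∈ L, ∃ p ∈ s, p.1 = b := by
    intro b hb
    obtain ⟨s, hs, hps⟩ := h.covP ⟨b, 0⟩ (mem_Cp.2 ⟨hb, hm.1 b hb⟩) (by simp)
    exact ⟨s, hs, _, hps, rfl⟩
  have hlne : ls ≠ [] := by
    intro h0
    obtain ⟨s, hs, _⟩ := hcovK b0 hb0
    have := (hmemls (s.map Sigma.fst)).2 ⟨s, hs, rfl⟩
    rw [h0] at this
    simp at this
  have hj := join hK ls hlne (by
    intro u hu
    obtain ⟨s, hs, rfl⟩ := (hmemls u).1 hu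
    refine ⟨?_, ?_⟩
    · rw [List.isChain_map]
      exact (h.chain s hs).imp fun _ _ h => Or.inr h
    · obtain ⟨p, q, h1, h2, h3, h4⟩ := h.ends s hs
      exact ⟨p.1, q.1, by rw [List.head?_map, h1]; rfl, by rw [List.getLast?_map, h2]; rfl,
        h3, h4⟩)
  refine ⟨ls.flatten, E, hj.1, hj.2, ?_, ?_, ?_⟩
  · intro v hv
    have : ∃ s ∈ L, ∃ p ∈ s, p.1 = v := by
      rcases Finset.mem_union.1 hv with hv | hv
      · exact hcovK v hv
      · exact h.covI v hv (by simp)
    obtain ⟨s, hs, p, hp, rfl⟩ := this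
    rw [List.mem_flatten]
    exact ⟨s.map Sigma.fst, (hmemls _).2 ⟨s, hs, rfl⟩, List.mem_map.2 ⟨p, hp, rfl⟩⟩
  · have h1 := h.len
    rw [card_Cp] at h1
    have h2 : ls.flatten.length = (L.map List.length).sum := by
      rw [List.length_flatten, hls, List.map_map]
      have e : (List.length ∘ List.map (Sigma.fst : ((_ : V) × ℕ) → V)) = List.length := by
        funext s
        simp
      rw [e]
      conv_rhs => rw [← Multiset.coe_toList L]
      rw [Multiset.map_coe, Multiset.sum_coe]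
    rw [h2]
    omega
  · rcases h.pot with h1 | h1
    · left
      omega
    · exact Or.inr ⟨h1.1, h1.2.1⟩

end Pool.Agent.K7.H43.Split
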