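import Mathlib
import Pool.Agent.K7.H43.SplitWalk
import Pool.Agent.R553.SP.Route
import Pool.Agent.R553.SP.Euler

/-!
# The subtour relaxation on split graphs
-/

set_option autoImplicit false

namespace Pool.Agent.K7.H43.Split

open Finset

variable {V : Type} [DecidableEq V] [Fintype V]

/-- visits of the neighbours of an independent set -/
theorem lower {G : SimpleGraph V} {K : Finset V} (hI : ∀ a ∉ K, ∀ b ∉ K, ¬ G.Adj a b)
    {y : V → V → ℝ} (hys : ∀ i j, y i j = y j i) (hy0 : ∀ i j, 0 ≤ y i j)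
    (hyG : ∀ i j, y i j ≠ 0 → G.Adj i j)
    (hyc : ∀ S : Finset V, S.Nonempty → S ≠ univ → 2 ≤ ∑ i ∈ S, ∑ j ∈ univ \ S, y i j)
    (hdeg : ∀ v, 2 ≤ ∑ j, y v j)
    (A : Finset V) (hA : A ⊆ univ \ K) :
    2 * (A.card : ℝ) + (if A.Nonempty ∧ A ∪ N G K A ≠ univ then 2 else 0) ≤
      ∑ b ∈ N G K A, ∑ j, y b j := by
  set R : Finset V := univ \ (A ∪ N G K A) with hR
  have hAK : ∀ a ∈ A, a ∉ K := fun a ha => (Finset.mem_sdiff.1 (hA ha)).2
  have hdisj : Disjoint A R := by
    rw [Finset.disjoint_left]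
    intro a ha haR
    exact (Finset.mem_sdiff.1 haR).2 (Finset.mem_union_left _ ha)
  -- the part that goes to `A`
  have h1 : 2 * (A.card : ℝ) ≤ ∑ b ∈ N G K A, ∑ j ∈ A, y b j := by
    rw [Finset.sum_comm]
    have h2 : ∀ a ∈ A, (2 : ℝ) ≤ ∑ b ∈ N G K A, y b a := by
      intro a ha
      refine (hdeg a).trans (le_of_eq ?_)
      have e1 : ∑ b ∈ N G K A, y b a = ∑ b ∈ N G K A, y a b :=
        Finset.sum_congr rfl fun b _ => hys b a
      rw [e1]
      symm
      refine Finset.sum_subset (Finset.subset_univ _) fun b _ hb => ?_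
      by_contra hne
      have hab := hyG a b hne
      have hbK : b ∈ K := by
        by_contra hbK
        exact hI a (hAK a ha) b hbK hab
      exact hb (mem_N.2 ⟨hbK, a, ha, hab⟩)
    have h3 : ∑ _a ∈ A, (2 : ℝ) ≤ ∑ a ∈ A, ∑ b ∈ N G K A, y b a := Finset.sum_le_sum h2
    rw [Finset.sum_const, nsmul_eq_mul] at h3
    linarith
  have h4 : ∀ b, ∑ j ∈ A, y b j + ∑ j ∈ R, y b j ≤ ∑ j, y b j := by
    intro b
    rw [← Finset.sum_union hdisj]
    exact Finset.sum_le_sum_of_subset_of_nonneg (Finset.subset_univ _) fun j _ _ => hy0 b j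
  have h5 : ∑ b ∈ N G K A, ∑ j ∈ A, y b j + ∑ b ∈ N G K A, ∑ j ∈ R, y b j ≤
      ∑ b ∈ N G K A, ∑ j, y b j := by
    rw [← Finset.sum_add_distrib]
    exact Finset.sum_le_sum fun b _ => h4 b
  have h6 : (if A.Nonempty ∧ A ∪ N G K A ≠ univ then (2 : ℝ) else 0) ≤
      ∑ b ∈ N G K A, ∑ j ∈ R, y b j := by
    split_ifs with hif
    · obtain ⟨hne, hun⟩ := hif
      have hRne : R.Nonempty := by
        rw [hR, Finset.sdiff_nonempty]
        intro h
        exact hun (Finset.univ_subset_iff.1 h)
      have hRun : R ≠ univ := by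
        obtain ⟨a, ha⟩ := hne
        intro h
        have : a ∈ R := by
          rw [h]
          exact Finset.mem_univ a
        exact (Finset.disjoint_left.1 hdisj ha) this
      refine (hyc R hRne hRun).trans (le_of_eq ?_)
      rw [Finset.sum_comm]
      have e : univ \ R = A ∪ N G K A := by
        rw [hR]
        simp
      rw [e]
      have hAN : Disjoint A (N G K A) := by
        rw [Finset.disjoint_left]
        intro a ha haN
        exact hAK a ha (N_sub _ _ _ haN)
      rw [Finset.sum_union hAN]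
      have hz : ∑ a ∈ A, ∑ j ∈ R, y j a = 0 := by
        refine Finset.sum_eq_zero fun a ha => Finset.sum_eq_zero fun j hj => ?_
        by_contra hne
        have hja := hyG j a hne
        have hjK : j ∈ K := by
          by_contra hjK
          exact hI j hjK a (hAK a ha) hja
        exact (Finset.mem_sdiff.1 hj).2 (Finset.mem_union_right _
          (mem_N.2 ⟨hjK, a, ha, hja.symm⟩))
      rw [hz, zero_add]
      exact Finset.sum_congr rfl fun b _ => Finset.sum_congr rfl fun j _ => hys j b
    · exact Finset.sum_nonneg fun b _ => Finset.sum_nonneg fun j _ => hy0 b j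
  linarith

theorem chain_of_forall {α : Type} {R : α → α → Prop} : ∀ l : List α,
    (∀ p ∈ l, ∀ q ∈ l, R p q) → l.IsChain R := by
  intro l
  induction l with
  | nil => intro _; exact List.isChain_nil
  | cons a l ih =>
    intro h
    cases l with
    | nil => exact List.isChain_singleton _
    | cons b l =>
      rw [List.isChain_cons_cons]
      exact ⟨h a (by simp) b (by simp), ih fun p hp q hq =>
        h p (List.mem_cons_of_mem _ hp) q (List.mem_cons_of_mem _ hq)⟩

/-- the cost of a chain -/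
theorem Q_le' {G : SimpleGraph V} {d : V → V → ℝ} {ρ : ℝ} (hd : ∀ a b, Ea G a b → d a b ≤ ρ)
    (z : V) : ∀ (w : List V) (u : V), (u :: w).IsChain (Ea G) →
      (∀ y, (u :: w).getLast? = some y → Ea G y z) →
      Pool.Agent.R553.SP.Q d u w z ≤ ρ * (w.length + 1) := by
  intro w
  induction w with
  | nil =>
    intro u _ h2
    have h3 := hd u z (h2 u rfl)
    show d u z ≤ _
    simpa using h3
  | cons a w ih =>
    intro u h1 h2
    rw [List.isChain_cons_cons] at h1
    have h3 := ih a h1.2 (fun y hy => h2 y (by rw [List.getLast?_cons_cons]; exact hy))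
    have h4 := hd u a h1.1
    show d u a + Pool.Agent.R553.SP.Q d a w z ≤ _
    rw [List.length_cons]
    push_cast
    linarith

/-- short closed walks from fractional visit numbers -/
theorem closed {G : SimpleGraph V} (hV : 3 ≤ Fintype.card V) (hconn : G.Connected) {K : Finset V}
    (hK : ∀ a ∈ K, ∀ b ∈ K, a ≠ b → G.Adj a b) (hI : ∀ a ∉ K, ∀ b ∉ K, ¬ G.Adj a b)
    {y : V → V → ℝ} (hys : ∀ i j, y i j = y j i) (hy0 : ∀ i j, 0 ≤ y i j)
    (hyG : ∀ i j, y i j ≠ 0 → G.Adj i j)
    (hyc : ∀ S : Finset V, S.Nonempty → S ≠ univ → 2 ≤ ∑ i ∈ S, ∑ j ∈ univ \ S, y i j) :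
    ∃ L : List V, L.IsChain (Ea G) ∧ (∃ p q, L.head? = some p ∧ L.getLast? = some q ∧ Ea G q p) ∧
      (∀ v, v ∈ L) ∧ (L.length : ℝ) ≤ 5 / 4 * ((1 / 2 : ℝ) * ∑ v, ∑ j, y v j) := by
  classical
  have hdeg : ∀ v, 2 ≤ ∑ j, y v j := by
    intro v
    have h1 : ({v} : Finset V) ≠ Finset.univ := by
      intro h
      have := congrArg Finset.card h
      rw [Finset.card_singleton, Finset.card_univ] at this
      omega
    have h2 := hyc {v} (Finset.singleton_nonempty v) h1
    rw [Finset.sum_singleton] at h2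
    exact h2.trans (Finset.sum_le_sum_of_subset_of_nonneg (Finset.subset_univ _)
      (fun j _ _ => hy0 v j))
  set f : V → ℝ := fun v => (1 / 2 : ℝ) * ∑ j, y v j with hf
  set I : Finset V := univ \ K with hIdef
  have hmemI : ∀ v, v ∈ I ↔ v ∉ K := fun v => by rw [hIdef]; simp
  have hf1 : ∀ b, 1 ≤ f b := fun b => by
    have := hdeg b
    rw [hf]
    beta_reduce
    linarith
  have hlow := lower hI hys hy0 hyG hyc hdeg
  have hlowf : ∀ A ⊆ I, (A.card : ℝ) + (if A.Nonempty ∧ A ∪ N G K A ≠ univ then 1 else 0) ≤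
      ∑ b ∈ N G K A, f b := by
    intro A hA
    have h1 := hlow A hA
    rw [hf, ← Finset.mul_sum]
    split_ifs at h1 ⊢ <;> linarith
  -- every point outside `K` has a neighbour in `K`
  have hnb : ∀ v, v ∉ K → ∃ b ∈ K, G.Adj v b := by
    intro v hv
    obtain ⟨w, hw⟩ := Fintype.exists_ne_of_one_lt_card (by omega : 1 < Fintype.card V) v
    obtain ⟨p⟩ := hconn.preconnected v w
    cases p with
    | nil => exact absurd rfl hw
    | cons h _ =>
      refine ⟨_, ?_, h⟩
      by_contra hb
      exact hI _ hv _ hb h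
  have hKne : K.Nonempty := by
    by_contra h
    rw [Finset.not_nonempty_iff_eq_empty] at h
    have hv : Nonempty V := Fintype.card_pos_iff.1 (by omega)
    obtain ⟨v⟩ := hv
    obtain ⟨b, hb, _⟩ := hnb v (by rw [h]; simp)
    rw [h] at hb
    simp at hb
  have htot : ∑ v, f v = ∑ b ∈ K, f b + ∑ v ∈ I, f v := by
    rw [hIdef, add_comm]
    exact (Finset.sum_sdiff (Finset.subset_univ K)).symm
  have hIf : (I.card : ℝ) ≤ ∑ v ∈ I, f v := by
    have : ∑ _v ∈ I, (1 : ℝ) ≤ ∑ v ∈ I, f v := Finset.sum_le_sum fun v _ => hf1 v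
    simpa using this
  have hKf : (I.card : ℝ) ≤ ∑ b ∈ K, f b := by
    have h1 := hlowf I subset_rfl
    have h2 : ∑ b ∈ N G K I, f b ≤ ∑ b ∈ K, f b :=
      Finset.sum_le_sum_of_subset_of_nonneg (N_sub _ _ _) fun b _ _ => by
        have := hf1 b
        linarith
    have h3 : (0 : ℝ) ≤ if I.Nonempty ∧ I ∪ N G K I ≠ univ then (1 : ℝ) else 0 := by
      split_ifs <;> norm_num
    linarith
  have hgoal : (1 / 2 : ℝ) * ∑ v, ∑ j, y v j = ∑ b ∈ K, f b + ∑ v ∈ I, f v := by
    rw [← htot, hf, Finset.mul_sum]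
  rw [hgoal]
  -- it suffices to find a walk with at most `|I| + f(K) + |I| / 2` points
  suffices h : ∃ L : List V, L.IsChain (Ea G) ∧
      (∃ p q, L.head? = some p ∧ L.getLast? = some q ∧ Ea G q p) ∧
      (∀ v, v ∈ L) ∧ (L.length : ℝ) ≤ I.card + ∑ b ∈ K, f b + I.card / 2 by
    obtain ⟨L, h1, h2, h3, h4⟩ := h
    exact ⟨L, h1, h2, h3, by linarith⟩
  have hKK : ∀ p ∈ K, ∀ q ∈ K, Ea G p q := by
    intro p hp q hq
    by_cases he : p = q
    · exact Or.inl he
    · exact Or.inr (hK p hp q hq he)
  by_cases hex : ∃ b0 ∈ K, ∀ i ∈ I, ¬ G.Adj i b0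
  · -- the inequalities hold for all of `I`
    obtain ⟨b0, hb0, hb0I⟩ := hex
    obtain ⟨m, hm, hmf⟩ := exists_int (G := G) (K := K) (I := I) (f := f)
      (fun b _ => hf1 b) (fun A hA hne => by
        have h1 := hlowf A hA
        have hun : A ∪ N G K A ≠ univ := by
          intro h
          have : b0 ∈ A ∪ N G K A := by
            rw [h]
            exact Finset.mem_univ b0
          rcases Finset.mem_union.1 this with h2 | h2
          · exact (hmemI b0).1 (hA h2) hb0
          · obtain ⟨_, i, hi, hib⟩ := mem_N.1 h2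
            exact hb0I i (hA hi) hib
        rw [if_pos ⟨hne, hun⟩] at h1
        exact h1)
    obtain ⟨L, E, h1, ⟨p, q, h2, h3, h4, h5⟩, h6, h7, h8⟩ := walk hm hK hKne
    refine ⟨L, h1, ⟨p, q, h2, h3, hKK q h5 p h4⟩, fun v => h6 v ?_, ?_⟩
    · rw [Finset.mem_union, hmemI]
      exact em _
    · have h9 : (L.length : ℝ) ≤ I.card + (∑ b ∈ K, m b : ℕ) + E := by exact_mod_cast h7
      have h10 : (E : ℝ) ≤ I.card / 2 := by
        rcases h8 with h8 | h8
        · have : (2 * E + 1 : ℝ) ≤ I.card := by exact_mod_cast h8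
          linarith
        · rw [h8.2]
          push_cast
          positivity
      linarith
  · push Not at hex
    have hIne : I.Nonempty := by
      obtain ⟨b, hb⟩ := hKne
      obtain ⟨i, hi, _⟩ := hex b hb
      exact ⟨i, hi⟩
    obtain ⟨i0, hi0⟩ := hIne
    have hi0K := (hmemI i0).1 hi0
    by_cases hcard : I.card = 1
    · -- a single point outside the clique
      obtain ⟨i1, hI1⟩ := Finset.card_eq_one.1 hcard
      have hi01 : i0 = i1 := by
        rw [hI1] at hi0
        simpa using hi0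
      subst hi01
      have hadj : ∀ b ∈ K, G.Adj i0 b := by
        intro b hb
        obtain ⟨i, hi, hib⟩ := hex b hb
        rw [hI1, Finset.mem_singleton] at hi
        rw [← hi]
        exact hib
      have hKl : K.toList ≠ [] := by
        rw [Ne, Finset.toList_eq_nil]
        exact hKne.ne_empty
      obtain ⟨a, l, hal⟩ := List.exists_cons_of_ne_nil hKl
      have haK : a ∈ K := by
        rw [← Finset.mem_toList, hal]
        exact List.mem_cons_self
      refine ⟨i0 :: K.toList, ?_, ⟨i0, K.toList.getLast hKl, rfl, ?_, ?_⟩, ?_, ?_⟩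
      · rw [hal, List.isChain_cons_cons, ← hal]
        refine ⟨Or.inr (hadj a haK), ?_⟩
        have hmem : ∀ b ∈ K.toList, b ∈ K := fun b hb => Finset.mem_toList.1 hb
        exact chain_of_forall _ fun p hp q hq => hKK p (hmem p hp) q (hmem q hq)
      · rw [List.getLast?_cons, List.getLast?_eq_some_getLast hKl]
        rfl
      · exact Or.inr (hadj _ (Finset.mem_toList.1 (List.getLast_mem hKl))).symm
      · intro v
        rw [List.mem_cons]
        by_cases hv : v ∈ K
        · exact Or.inr (Finset.mem_toList.2 hv)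
        · left
          have := (hmemI v).2 hv
          rw [hI1] at this
          simpa using this
      · rw [List.length_cons, Finset.length_toList]
        have h1 : (K.card : ℝ) ≤ ∑ b ∈ K, f b := by
          have : ∑ _b ∈ K, (1 : ℝ) ≤ ∑ b ∈ K, f b := Finset.sum_le_sum fun v _ => hf1 v
          simpa using this
        rw [hcard]
        push_cast
        linarith
    · -- leave out one point and insert it later
      have hcard2 : 2 ≤ I.card := by
        have := Finset.card_pos.2 ⟨i0, hi0⟩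
        omega
      obtain ⟨m, hm, hmf⟩ := exists_int (G := G) (K := K) (I := I.erase i0) (f := f)
        (fun b _ => hf1 b) (fun A hA hne => by
          have h1 := hlowf A (hA.trans (Finset.erase_subset _ _))
          have hun : A ∪ N G K A ≠ univ := by
            intro h
            have : i0 ∈ A ∪ N G K A := by
              rw [h]
              exact Finset.mem_univ i0
            rcases Finset.mem_union.1 this with h2 | h2
            · have := hA h2
              simp at this
            · exact hi0K (N_sub _ _ _ h2)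
          rw [if_pos ⟨hne, hun⟩] at h1
          exact h1)
      obtain ⟨L, E, h1, ⟨p, q, h2, h3, h4, h5⟩, h6, h7, h8⟩ := walk hm hK hKne
      obtain ⟨b, hb, hib⟩ := hnb i0 hi0K
      have hbL : b ∈ L := h6 b (Finset.mem_union_left _ hb)
      obtain ⟨L1, L2, rfl⟩ := List.append_of_mem hbL
      refine ⟨L1 ++ b :: i0 :: b :: L2, ?_, ⟨p, q, ?_, ?_, hKK q h5 p h4⟩, ?_, ?_⟩
      · rw [List.isChain_append] at h1 ⊢
        refine ⟨h1.1, ?_, ?_⟩
        · rw [List.isChain_cons_cons, List.isChain_cons_cons]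
          exact ⟨Or.inr hib.symm, Or.inr hib, h1.2.1⟩
        · intro x hx z hz
          exact h1.2.2 x hx z (by simpa using hz)
      · rw [List.head?_append] at h2 ⊢
        simpa using h2
      · rw [List.getLast?_append] at h3 ⊢
        simp only [List.getLast?_cons_cons] at h3 ⊢
        exact h3
      · intro v
        by_cases hv : v = i0
        · rw [hv]
          simp
        · have h9 : v ∈ L1 ++ b :: L2 := h6 v (by
            rw [Finset.mem_union, Finset.mem_erase, hmemI]
            by_cases hvK : v ∈ K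
            · exact Or.inl hvK
            · exact Or.inr ⟨hv, hvK⟩)
          simp only [List.mem_append, List.mem_cons] at h9 ⊢
          tauto
      · have hce : (I.erase i0).card + 1 = I.card := by
          rw [Finset.card_erase_of_mem hi0]
          omega
        have h9 : ((L1 ++ b :: i0 :: b :: L2).length) = (L1 ++ b :: L2).length + 2 := by
          simp only [List.length_append, List.length_cons]
          omega
        rw [h9]
        have h10 : 2 * E + 2 ≤ I.card := by
          rcases h8 with h8 | h8 <;> omega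
        have h11 : (L1 ++ b :: L2).length + 2 ≤ I.card + ∑ b ∈ K, m b + E + 1 := by omega
        have h12 : (((L1 ++ b :: L2).length + 2 : ℕ) : ℝ) ≤
            I.card + (∑ b ∈ K, m b : ℕ) + E + 1 := by exact_mod_cast h11
        have h13 : (2 * E + 2 : ℝ) ≤ I.card := by exact_mod_cast h10
        linarith

theorem main (G : SimpleGraph V) (hV : 3 ≤ Fintype.card V) (hconn : G.Connected) {K : Finset V}
    (hK : ∀ a ∈ K, ∀ b ∈ K, a ≠ b → G.Adj a b) (hI : ∀ a ∉ K, ∀ b ∉ K, ¬ G.Adj a b)
    (x : V → V → ℝ) (hxs : ∀ a b, x a b = x b a) (hx0 : ∀ a b, 0 ≤ x a b)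
    (hxc : ∀ S : Finset V, S.Nonempty → S ≠ univ → 2 ≤ ∑ a ∈ S, ∑ b ∈ Sᶜ, x a b)
    (d : V → V → ℝ) (ρ : ℝ) (h0 : ∀ a, d a a = 0) (htri : ∀ a b c, d a c ≤ d a b + d b c)
    (hdl : ∀ a b, (G.dist a b : ℝ) ≤ d a b) (hdu : ∀ a b, G.Adj a b → d a b ≤ ρ) :
    ∃ f : Fin (Fintype.card V) ≃ V, ∑ i, d (f i) (f (finRotate _ i)) ≤
      5 / 4 * ρ * ((1 / 2 : ℝ) * ∑ a, ∑ b, d a b * x a b) := by
  classical
  have hnt : Nontrivial V := Fintype.one_lt_card_iff_nontrivial.1 (by omega)
  -- an edge
  obtain ⟨a0, b0, hab⟩ : ∃ a b, G.Adj a b := by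
    obtain ⟨a, b, hne⟩ := exists_pair_ne V
    obtain ⟨p⟩ := hconn.preconnected a b
    cases p with
    | nil => exact absurd rfl hne
    | cons h _ => exact ⟨_, _, h⟩
  have hρ1 : 1 ≤ ρ := by
    have h1 := hdl a0 b0
    rw [SimpleGraph.dist_eq_one_iff_adj.2 hab, Nat.cast_one] at h1
    exact h1.trans (hdu a0 b0 hab)
  -- routing along shortest paths
  obtain ⟨y, hys, hy0, hyG, hyc, hyd⟩ := Pool.Agent.R553.SP.route G
    (fun a b => (G.dist a b : ℝ)) x 1 (fun a b => by rw [SimpleGraph.dist_comm]) hxs hx0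
    hxc (by
      intro a b _
      obtain ⟨p, hp⟩ := (hconn.preconnected a b).exists_walk_length_eq_dist
      refine ⟨p, le_of_eq ?_⟩
      have h1 : (p.darts.map fun e => (G.dist e.fst e.snd : ℝ)) =
          p.darts.map fun _ => (1 : ℝ) := by
        apply List.map_congr_left
        intro e _
        rw [SimpleGraph.dist_eq_one_iff_adj.2 e.adj, Nat.cast_one]
      rw [h1, List.map_const', List.sum_replicate, SimpleGraph.Walk.length_darts, hp]
      simp)
  have hcost : ∑ i, ∑ j, y i j ≤ ∑ i, ∑ j, (G.dist i j : ℝ) * x i j := by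
    have h1 : ∑ i, ∑ j, (G.dist i j : ℝ) * y i j = ∑ i, ∑ j, y i j := by
      refine Finset.sum_congr rfl fun i _ => Finset.sum_congr rfl fun j _ => ?_
      by_cases hij : y i j = 0
      · rw [hij, mul_zero]
      · rw [SimpleGraph.dist_eq_one_iff_adj.2 (hyG i j hij), Nat.cast_one, one_mul]
    rw [h1, one_mul] at hyd
    exact hyd
  obtain ⟨L, h1, ⟨p, q, h2, h3, h4⟩, h5, h6⟩ := closed hV hconn hK hI hys hy0 hyG hyc
  cases L with
  | nil => simp at h2
  | cons u w =>
    have hup : u = p := by simpa using h2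
    subst hup
    obtain ⟨g, hg⟩ := Pool.Agent.R553.SP.shortcut d htri u w h5
    have hea : ∀ a b, Ea G a b → d a b ≤ ρ := by
      intro a b h
      rcases h with rfl | h
      · rw [h0]
        linarith
      · exact hdu a b h
    have h7 := Q_le' hea u w u h1 (by
      intro z hz
      rw [h3] at hz
      rw [← Option.some.inj hz]
      exact h4)
    refine ⟨g, hg.trans (h7.trans ?_)⟩
    rw [List.length_cons] at h6
    push_cast at h6
    have h8 : (1 / 2 : ℝ) * ∑ v, ∑ j, y v j ≤ (1 / 2 : ℝ) * ∑ a, ∑ b, d a b * x a b := by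
      refine mul_le_mul_of_nonneg_left (hcost.trans ?_) (by norm_num)
      exact Finset.sum_le_sum fun i _ => Finset.sum_le_sum fun j _ =>
        mul_le_mul_of_nonneg_right (hdl i j) (hx0 i j)
    have h9 : (w.length : ℝ) + 1 ≤ 5 / 4 * ((1 / 2 : ℝ) * ∑ a, ∑ b, d a b * x a b) := by
      linarith
    have h10 := mul_le_mul_of_nonneg_left h9 (by linarith : (0 : ℝ) ≤ ρ)
    linarith

end Pool.Agent.K7.H43.Split
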